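import Pool.Agent.L7h49.IE.Ridge

set_option autoImplicit false

namespace Pool.Agent.L7h49.IE

open Pool.Agent.L7h31.IE
open scoped InnerProductSpace

/-- the Lorentz form as a bilinear form -/
noncomputable def LB (d : ℕ) : LinearMap.BilinForm ℝ (E d × ℝ) :=
  LinearMap.mk₂ ℝ (fun A B => L A B) L_add_left L_smul_left
    (fun C A B => L_add_right A B C) (fun a C A => L_smul_right a A C)

theorem LB_apply {d : ℕ} (A B : E d × ℝ) : LB d A B = L A B := rfl

theorem LB_symm (d : ℕ) : (LB d).IsSymm :=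
  ⟨fun A B => L_comm A B⟩

theorem L_sep {d : ℕ} (A : E d × ℝ) (h : ∀ B, L A B = 0) : A = 0 := by
  have h1 := h (A.1, -A.2)
  rw [L, real_inner_self_eq_norm_sq] at h1
  have h2 : A.1 = 0 := by
    rw [← norm_eq_zero]
    nlinarith [sq_nonneg ‖A.1‖, sq_nonneg A.2]
  have h3 : A.2 = 0 := by
    nlinarith [sq_nonneg ‖A.1‖, sq_nonneg A.2]
  exact Prod.ext h2 h3

theorem LB_nondeg (d : ℕ) : (LB d).Nondegenerate :=
  ⟨fun A h => L_sep A h, fun A h => L_sep A fun B => by rw [L_comm]; exact h B⟩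

/-- the Lorentz form is positive on the space orthogonal to a timelike vector -/
theorem L_pos {d : ℕ} (Z A : E d × ℝ) (hZ : L Z Z < 0) (h : L A Z = 0) (hA : A ≠ 0) :
    0 < L A A := by
  by_contra hcon
  rw [not_lt] at hcon
  rw [L, real_inner_self_eq_norm_sq] at hZ hcon
  rw [L, sub_eq_zero] at h
  have h1 := abs_real_inner_le_norm A.1 Z.1
  have h2 : (A.2 * Z.2) ^ 2 ≤ ‖A.1‖ ^ 2 * ‖Z.1‖ ^ 2 := by
    rw [← h, ← mul_pow, ← sq_abs]
    exact pow_le_pow_left₀ (abs_nonneg _) h1 2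
  have hz : ‖Z.1‖ ^ 2 < Z.2 ^ 2 := by nlinarith
  have ha : ‖A.1‖ ^ 2 ≤ A.2 ^ 2 := by nlinarith
  have h3 : A.2 ^ 2 * Z.2 ^ 2 ≤ A.2 ^ 2 * ‖Z.1‖ ^ 2 := by
    calc A.2 ^ 2 * Z.2 ^ 2 = (A.2 * Z.2) ^ 2 := by ring
      _ ≤ ‖A.1‖ ^ 2 * ‖Z.1‖ ^ 2 := h2
      _ ≤ A.2 ^ 2 * ‖Z.1‖ ^ 2 := mul_le_mul_of_nonneg_right ha (sq_nonneg _)
  have h4 : A.2 ^ 2 = 0 := by
    by_contra h5
    have h6 : 0 < A.2 ^ 2 := lt_of_le_of_ne (sq_nonneg _) (Ne.symm h5)
    have := mul_lt_mul_of_pos_left hz h6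
    linarith
  have h5 : ‖A.1‖ ^ 2 = 0 := le_antisymm (by rw [← h4]; exact ha) (sq_nonneg _)
  exact hA (Prod.ext (norm_eq_zero.mp (pow_eq_zero_iff two_ne_zero |>.mp h5))
    (pow_eq_zero_iff two_ne_zero |>.mp h4))

theorem s_BAS : S_BAS := by
  intro d ι _ g Z hcard hg hZ hZZ
  classical
  set W : Submodule ℝ (E d × ℝ) := Submodule.span ℝ (Set.range g) with hW
  set H : Submodule ℝ (E d × ℝ) := (LB d).orthogonal W with hH
  have hfr : Module.finrank ℝ H = 3 := by
    rw [hH, LinearMap.BilinForm.finrank_orthogonal (LB_nondeg d), hW, finrank_span_eq_card hg,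
      Module.finrank_prod]
    simp only [finrank_euclideanSpace_fin, Module.finrank_self]
    omega
  -- membership
  have hmem : ∀ A : E d × ℝ, A ∈ H ↔ ∀ k, L A (g k) = 0 := by
    intro A
    rw [hH, LinearMap.BilinForm.mem_orthogonal_iff]
    constructor
    · intro h k
      rw [L_comm]
      exact h (g k) (Submodule.subset_span ⟨k, rfl⟩)
    · intro h B hB
      rw [hW] at hB
      change L B A = 0
      induction hB using Submodule.span_induction with
      | mem x hx =>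
        obtain ⟨k, rfl⟩ := hx
        rw [L_comm]
        exact h k
      | zero => exact L_zero_left _
      | add x y _ _ hx hy => rw [L_add_left, hx, hy, add_zero]
      | smul a x _ hx => rw [L_smul_left, hx, mul_zero]
  have hHZ : ∀ A ∈ H, L A Z = 0 := by
    intro A hA
    rw [L_comm]
    exact (LinearMap.BilinForm.mem_orthogonal_iff.mp hA) Z hZ
  have hpos : ∀ A ∈ H, A ≠ 0 → 0 < L A A := fun A hA h0 => L_pos Z A hZZ (hHZ A hA) h0
  -- an orthogonal basis
  have hsym : LinearMap.IsSymm ((LB d).restrict H) :=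
    ⟨fun A B => L_comm (A : E d × ℝ) B⟩
  obtain ⟨v, hv⟩ := LinearMap.BilinForm.exists_orthogonal_basis hsym
  set w : Module.Basis (Fin 3) ℝ H := v.reindex (finCongr hfr) with hw
  have hwo : ∀ m m', m ≠ m' → L (w m : E d × ℝ) (w m') = 0 := by
    intro m m' hmm
    rw [hw]
    simp only [Module.Basis.reindex_apply]
    exact hv (fun h => hmm ((finCongr hfr).symm.injective h))
  have hwp : ∀ m, 0 < L (w m : E d × ℝ) (w m) := fun m =>
    hpos _ (w m).2 fun h => w.ne_zero m (Subtype.ext h)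
  set e : Fin 3 → E d × ℝ := fun m => (Real.sqrt (L (w m : E d × ℝ) (w m)))⁻¹ • (w m : E d × ℝ)
    with he
  have hsq : ∀ m, Real.sqrt (L (w m : E d × ℝ) (w m)) * Real.sqrt (L (w m : E d × ℝ) (w m)) =
      L (w m : E d × ℝ) (w m) := fun m => Real.mul_self_sqrt (hwp m).le
  have hs0 : ∀ m, Real.sqrt (L (w m : E d × ℝ) (w m)) ≠ 0 := fun m =>
    (Real.sqrt_pos.mpr (hwp m)).ne'
  refine ⟨e, fun m m' => ?_, fun m k => ?_, fun A hA => ?_⟩
  · simp only [he]
    rw [L_smul_left, L_smul_right]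
    split_ifs with h
    · subst h
      rw [← mul_assoc, ← mul_inv, hsq, inv_mul_cancel₀ (hwp m).ne']
    · rw [hwo m m' h, mul_zero, mul_zero]
  · simp only [he]
    rw [L_smul_left, (hmem _).mp (w m).2 k, mul_zero]
  · have hAH : A ∈ H := (hmem A).mpr hA
    have h1 := w.sum_repr ⟨A, hAH⟩
    set c : Fin 3 → ℝ := fun m => w.repr ⟨A, hAH⟩ m with hc
    have h2 : A = ∑ m, c m • (w m : E d × ℝ) := by
      have := congrArg (Subtype.val) h1
      rw [Submodule.coe_sum] at this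
      exact this.symm
    have h3 : ∀ m, L A (w m : E d × ℝ) = c m * L (w m : E d × ℝ) (w m) := by
      intro m
      conv_lhs => rw [h2]
      rw [L_sum_left, Finset.sum_eq_single m (fun i _ him => by
        rw [L_smul_left, hwo i m him, mul_zero]) (fun h => absurd (Finset.mem_univ m) h),
        L_smul_left]
    conv_lhs => rw [h2]
    refine Finset.sum_congr rfl fun m _ => ?_
    simp only [he]
    rw [L_smul_right, h3, smul_smul]
    congr 1
    have h4 := hsq m
    have h5 := hs0 m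
    field_simp
    rw [sq]
    rw [h4]

end Pool.Agent.L7h49.IE
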