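import Pool.Agent.L7h31.IE.Stm

set_option autoImplicit false

namespace Pool.Agent.L7h49.IE

open Pool.Agent.L7h31.IE
open scoped InnerProductSpace

theorem s_COL : S_COL := by
  classical
  obtain ⟨t, -, htf, hcov⟩ := (isCompact_sphere (0 : E 3) 1).finite_cover_balls
    (show (0 : ℝ) < 1 / 2 by norm_num)
  set T : Finset (E 3) := htf.toFinset with hT
  -- the colour of a unit vector
  have hcol : ∀ w : E 3, ∃ c : E 3, ‖w‖ = 1 → c ∈ T ∧ dist w c < 1 / 2 := by
    intro w
    by_cases hw : ‖w‖ = 1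
    · have h1 : w ∈ Metric.sphere (0 : E 3) 1 := by
        rw [mem_sphere_zero_iff_norm]; exact hw
      have h2 := hcov h1
      rw [Set.mem_iUnion₂] at h2
      obtain ⟨c, hc, hwc⟩ := h2
      exact ⟨c, fun _ => ⟨htf.mem_toFinset.mpr hc, hwc⟩⟩
    · exact ⟨0, fun h => absurd h hw⟩
  choose col hcol using hcol
  refine ⟨T.powerset.card, fun n e he hn => ?_⟩
  set w : Fin n → Fin n → E 3 := fun i j => (‖e j - e i‖)⁻¹ • (e j - e i) with hw
  have hne : ∀ i j, i ≠ j → ‖e j - e i‖ ≠ 0 := by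
    intro i j hij
    rw [norm_ne_zero_iff, sub_ne_zero]
    exact fun h => hij (he h).symm
  have hw1 : ∀ i j, i ≠ j → ‖w i j‖ = 1 := by
    intro i j hij
    simp only [hw]
    rw [norm_smul, norm_inv, norm_norm, inv_mul_cancel₀ (hne i j hij)]
  set s : Fin n → Finset (E 3) := fun j =>
    (Finset.univ.filter fun k : Fin n => j < k).image fun k => col (w j k) with hs
  have hsT : ∀ j ∈ (Finset.univ : Finset (Fin n)), s j ∈ T.powerset := by
    intro j _
    rw [Finset.mem_powerset]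
    intro c hc
    simp only [hs] at hc
    rw [Finset.mem_image] at hc
    obtain ⟨k, hk, rfl⟩ := hc
    rw [Finset.mem_filter] at hk
    exact (hcol _ (hw1 j k hk.2.ne)).1
  have hcard : T.powerset.card < (Finset.univ : Finset (Fin n)).card := by
    rw [Finset.card_univ, Fintype.card_fin]
    exact hn
  obtain ⟨i, -, j, -, hij, hsij⟩ := Finset.exists_ne_map_eq_of_card_lt_of_maps_to hcard hsT
  have main : ∀ i j : Fin n, i < j → s i = s j → ∃ i j k : Fin n, i < j ∧ j < k ∧
      (1 / 2) * (‖e j - e i‖ * ‖e k - e j‖) < ⟪e j - e i, e k - e j⟫_ℝ := by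
    intro i j hij hs'
    have h1 : col (w i j) ∈ s i := by
      simp only [hs]
      rw [Finset.mem_image]
      exact ⟨j, by rw [Finset.mem_filter]; exact ⟨Finset.mem_univ _, hij⟩, rfl⟩
    rw [hs'] at h1
    simp only [hs] at h1
    rw [Finset.mem_image] at h1
    obtain ⟨k, hk, hkc⟩ := h1
    rw [Finset.mem_filter] at hk
    refine ⟨i, j, k, hij, hk.2, ?_⟩
    have n1 := hw1 i j hij.ne
    have n2 := hw1 j k hk.2.ne
    have d1 := (hcol _ n1).2
    have d2 := (hcol _ n2).2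
    rw [hkc] at d2
    have d3 : dist (w i j) (w j k) < 1 := by
      have := dist_triangle_right (w i j) (w j k) (col (w i j))
      linarith
    rw [dist_eq_norm] at d3
    have h2 : ‖w i j - w j k‖ ^ 2 = 2 - 2 * ⟪w i j, w j k⟫_ℝ := by
      rw [norm_sub_sq_real, n1, n2]
      ring
    have h3 : ‖w i j - w j k‖ ^ 2 < 1 := by
      have := norm_nonneg (w i j - w j k)
      nlinarith
    have h4 : 1 / 2 < ⟪w i j, w j k⟫_ℝ := by linarith
    have p1 : 0 < ‖e j - e i‖ := lt_of_le_of_ne (norm_nonneg _) (Ne.symm (hne i j hij.ne))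
    have p2 : 0 < ‖e k - e j‖ := lt_of_le_of_ne (norm_nonneg _) (Ne.symm (hne j k hk.2.ne))
    have h5 : ⟪w i j, w j k⟫_ℝ = (‖e j - e i‖)⁻¹ * ((‖e k - e j‖)⁻¹ *
        ⟪e j - e i, e k - e j⟫_ℝ) := by
      simp only [hw]
      rw [real_inner_smul_left, real_inner_smul_right]
    rw [h5] at h4
    have h6 := mul_lt_mul_of_pos_left h4 (mul_pos p1 p2)
    have h7 : ‖e j - e i‖ * ‖e k - e j‖ * ((‖e j - e i‖)⁻¹ * ((‖e k - e j‖)⁻¹ *
        ⟪e j - e i, e k - e j⟫_ℝ)) = ⟪e j - e i, e k - e j⟫_ℝ := by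
      field_simp
    rw [h7] at h6
    linarith
  rcases lt_or_gt_of_ne hij with h | h
  · exact main i j h hsij
  · exact main j i h hsij.symm

end Pool.Agent.L7h49.IE
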