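import Pool.Agent.L7h49.IE.Ridge

set_option autoImplicit false

namespace Pool.Agent.L7h49.IE

open Pool.Agent.L7h31.IE
open scoped InnerProductSpace

theorem s_CONE (hC : S_CONE3) (hB : S_BAS) : S_CONE := by
  obtain ⟨K, hK⟩ := hC
  refine ⟨K, fun d ι _ g Z hcard hg hZ hZZ n A B X hA hBg hAA hBB hAB hAX hBX hAXj hBXj => ?_⟩
  obtain ⟨e, -, -, he3⟩ := hB d ι g Z hcard hg hZ hZZ
  set φ : E d × ℝ → E 3 := fun Y => WithLp.toLp 2 fun m => L Y (e m) with hφ
  have hin : ∀ Y Y' : E d × ℝ, (∀ k, L Y (g k) = 0) → ⟪φ Y, φ Y'⟫_ℝ = L Y Y' := by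
    intro Y Y' hY
    have h1 : L Y Y' = ∑ m, L Y (e m) * L (e m) Y' := by
      conv_lhs => rw [he3 Y hY]
      rw [L_sum_left]
      exact Finset.sum_congr rfl fun m _ => L_smul_left _ _ _
    rw [h1, PiLp.inner_apply]
    refine Finset.sum_congr rfl fun m _ => ?_
    simp only [hφ, RCLike.inner_apply, conj_trivial]
    rw [L_comm (e m) Y', mul_comm]
  refine hK n (fun i => φ (A i)) (fun i => φ (B i)) (fun i => φ (X i)) (fun i => ?_) (fun i => ?_)
    (fun i => ?_) (fun i => ?_) (fun i => ?_) (fun i j hij => ?_) (fun i j hij => ?_)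
  · have h1 : ‖φ (A i)‖ ^ 2 = 1 := by
      rw [← real_inner_self_eq_norm_sq, hin _ _ (hA i), hAA]
    exact (pow_eq_one_iff_of_nonneg (norm_nonneg _) two_ne_zero).mp h1
  · have h1 : ‖φ (B i)‖ ^ 2 = 1 := by
      rw [← real_inner_self_eq_norm_sq, hin _ _ (hBg i), hBB]
    exact (pow_eq_one_iff_of_nonneg (norm_nonneg _) two_ne_zero).mp h1
  · rw [hin _ _ (hA i)]; exact hAB i
  · rw [hin _ _ (hA i)]; exact hAX i
  · rw [hin _ _ (hBg i)]; exact hBX i
  · rw [hin _ _ (hA i)]; exact hAXj i j hij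
  · rw [hin _ _ (hBg i)]; exact hBXj i j hij

end Pool.Agent.L7h49.IE
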