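import Pool.Agent.L7h31.IE.Stm

set_option autoImplicit false

namespace Pool.Agent.L7h49.IE

open Pool.Agent.L7h31.IE
open scoped InnerProductSpace

theorem proj_inner (y z e : E 3) (he : ⟪e, e⟫_ℝ = 1) :
    ⟪y - ⟪y, e⟫_ℝ • e, z - ⟪z, e⟫_ℝ • e⟫_ℝ = ⟪y, z⟫_ℝ - ⟪y, e⟫_ℝ * ⟪z, e⟫_ℝ := by
  rw [inner_sub_left, inner_sub_right, inner_sub_right, real_inner_smul_left,
    real_inner_smul_left, real_inner_smul_right, real_inner_smul_right, he,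
    real_inner_comm z e]
  ring

theorem proj_inner2 (w v e : E 3) (hw : ⟪w, e⟫_ℝ = 0) :
    ⟪w, v - e - ⟪v - e, e⟫_ℝ • e⟫_ℝ = ⟪w, v⟫_ℝ := by
  rw [inner_sub_right, inner_sub_right, real_inner_smul_right, hw]
  ring

theorem s_CONE3 (hSEC : S_SEC) (hCOL : S_COL) : S_CONE3 := by
  obtain ⟨K, hK⟩ := hCOL
  refine ⟨K + 1, fun n a b x ha hb hab hax hbx haj hbj => ?_⟩
  by_contra hn
  rw [not_le] at hn
  have hne : ∀ i, x i ≠ 0 := by
    intro i h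
    obtain ⟨j, hj⟩ : ∃ j : Fin n, j ≠ i := by
      by_contra hcon
      push Not at hcon
      have h1 : Fintype.card (Fin n) ≤ 1 :=
        Fintype.card_le_one_iff.mpr fun u v => (hcon u).trans (hcon v).symm
      rw [Fintype.card_fin] at h1
      omega
    have := hbj j i (Ne.symm hj)
    rw [h, inner_zero_right] at this
    exact lt_irrefl _ this
  set e : Fin n → E 3 := fun i => (‖x i‖)⁻¹ • x i with he
  have hxn : ∀ i, 0 < ‖x i‖ := fun i => norm_pos_iff.mpr (hne i)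
  have he1 : ∀ i, ‖e i‖ = 1 := by
    intro i
    simp only [he]
    rw [norm_smul, norm_inv, norm_norm, inv_mul_cancel₀ (hxn i).ne']
  have hae : ∀ i j, ⟪a i, e j⟫_ℝ = (‖x j‖)⁻¹ * ⟪a i, x j⟫_ℝ := fun i j => by
    simp only [he]
    rw [real_inner_smul_right]
  have hbe : ∀ i j, ⟪b i, e j⟫_ℝ = (‖x j‖)⁻¹ * ⟪b i, x j⟫_ℝ := fun i j => by
    simp only [he]
    rw [real_inner_smul_right]
  have hae0 : ∀ i, ⟪a i, e i⟫_ℝ = 0 := fun i => by rw [hae, hax, mul_zero]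
  have hbe0 : ∀ i, ⟪b i, e i⟫_ℝ = 0 := fun i => by rw [hbe, hbx, mul_zero]
  have haen : ∀ i j, j ≠ i → ⟪a i, e j⟫_ℝ ≤ 0 := fun i j h => by
    rw [hae]
    exact mul_nonpos_of_nonneg_of_nonpos (inv_nonneg.mpr (hxn j).le) (haj i j h)
  have hben : ∀ i j, j ≠ i → ⟪b i, e j⟫_ℝ < 0 := fun i j h => by
    rw [hbe]
    exact mul_neg_of_pos_of_neg (inv_pos.mpr (hxn j)) (hbj i j h)
  have hinj : Function.Injective e := by
    intro i j hij
    by_contra h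
    have := hben i j (Ne.symm h)
    rw [← hij, hbe0] at this
    exact lt_irrefl _ this
  clear_value e
  obtain ⟨i, j, k, hij, hjk, hlt⟩ := hK n e hinj (by omega)
  set y' : E 3 := e i - e j with hy'
  set z' : E 3 := e k - e j with hz'
  have hyn : ‖e j - e i‖ = ‖y'‖ := norm_sub_rev _ _
  have hyz : ⟪e j - e i, e k - e j⟫_ℝ = -⟪y', z'⟫_ℝ := by
    rw [hy', hz', ← inner_neg_left, neg_sub]
  rw [hyn, hyz] at hlt
  have hee : ⟪e j, e j⟫_ℝ = 1 := by rw [real_inner_self_eq_norm_sq, he1]; norm_num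
  have le1 : ∀ m, ⟪e m, e j⟫_ℝ ≤ 1 := by
    intro m
    have := real_inner_le_norm (e m) (e j)
    rwa [he1, he1, mul_one] at this
  have hy'e : ⟪y', e j⟫_ℝ ≤ 0 := by
    rw [hy', inner_sub_left, hee]
    linarith [le1 i]
  have hz'e : ⟪z', e j⟫_ℝ ≤ 0 := by
    rw [hz', inner_sub_left, hee]
    linarith [le1 k]
  set y : E 3 := y' - ⟪y', e j⟫_ℝ • e j with hy
  set z : E 3 := z' - ⟪z', e j⟫_ℝ • e j with hz
  have hproj : ∀ v : E 3, ⟪v - ⟪v, e j⟫_ℝ • e j, e j⟫_ℝ = 0 := by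
    intro v
    rw [inner_sub_left, real_inner_smul_left, hee, mul_one, sub_self]
  have hnorm : ∀ v : E 3, ‖v - ⟪v, e j⟫_ℝ • e j‖ ≤ ‖v‖ := by
    intro v
    refine le_of_sq_le_sq ?_ (norm_nonneg _)
    rw [norm_sub_sq_real, real_inner_smul_right, norm_smul, he1, mul_one, Real.norm_eq_abs, sq_abs]
    nlinarith [sq_nonneg ⟪v, e j⟫_ℝ]
  have hyz2 : ⟪y, z⟫_ℝ = ⟪y', z'⟫_ℝ - ⟪y', e j⟫_ℝ * ⟪z', e j⟫_ℝ := proj_inner y' z' (e j) hee
  have hfin := hSEC (e j) (a j) (b j) y z (he1 j) (ha j) (hb j) (hae0 j) (hbe0 j)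
    (hproj y') (hproj z') (hab j)
    (by rw [hy, hy', proj_inner2 _ _ _ (hae0 j)]; exact haen j i hij.ne)
    (by rw [hy, hy', proj_inner2 _ _ _ (hbe0 j)]; exact hben j i hij.ne)
    (by rw [hz, hz', proj_inner2 _ _ _ (hae0 j)]; exact haen j k hjk.ne')
    (by rw [hz, hz', proj_inner2 _ _ _ (hbe0 j)]; exact (hben j k hjk.ne').le)
  rw [hyz2] at hfin
  have h1 : 0 ≤ ⟪y', e j⟫_ℝ * ⟪z', e j⟫_ℝ := mul_nonneg_of_nonpos_of_nonpos hy'e hz'e
  have h2 : ‖y‖ * ‖z‖ ≤ ‖y'‖ * ‖z'‖ :=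
    mul_le_mul (hnorm y') (hnorm z') (norm_nonneg _) (norm_nonneg _)
  linarith

end Pool.Agent.L7h49.IE
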