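import Pool.Agent.L7h31.IE.Stm

set_option autoImplicit false

namespace Pool.Agent.L7h49.IE

open Pool.Agent.L7h31.IE
open scoped InnerProductSpace

theorem L_comm {d : ℕ} (A B : E d × ℝ) : L A B = L B A := by
  rw [L, L, real_inner_comm, mul_comm]

theorem L_add_left {d : ℕ} (A B C : E d × ℝ) : L (A + B) C = L A C + L B C := by
  simp only [L, Prod.fst_add, Prod.snd_add, inner_add_left]
  ring

theorem L_smul_left {d : ℕ} (a : ℝ) (A C : E d × ℝ) : L (a • A) C = a * L A C := by
  simp only [L, Prod.smul_fst, Prod.smul_snd, real_inner_smul_left, smul_eq_mul]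
  ring

theorem L_sub_left {d : ℕ} (A B C : E d × ℝ) : L (A - B) C = L A C - L B C := by
  simp only [L, Prod.fst_sub, Prod.snd_sub, inner_sub_left]
  ring

theorem L_zero_left {d : ℕ} (C : E d × ℝ) : L 0 C = 0 := by
  simp [L]

theorem L_sum_left {d : ℕ} {ι : Type} (s : Finset ι) (f : ι → E d × ℝ) (C : E d × ℝ) :
    L (∑ i ∈ s, f i) C = ∑ i ∈ s, L (f i) C := by
  classical
  induction s using Finset.induction_on with
  | empty => simp [L_zero_left]
  | insert a s ha ih => rw [Finset.sum_insert ha, Finset.sum_insert ha, L_add_left, ih]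

theorem L_add_right {d : ℕ} (A B C : E d × ℝ) : L C (A + B) = L C A + L C B := by
  rw [L_comm, L_add_left, L_comm A, L_comm B]

theorem L_smul_right {d : ℕ} (a : ℝ) (A C : E d × ℝ) : L C (a • A) = a * L C A := by
  rw [L_comm, L_smul_left, L_comm A]

theorem L_sub_right {d : ℕ} (A B C : E d × ℝ) : L C (A - B) = L C A - L C B := by
  rw [L_comm, L_sub_left, L_comm A, L_comm B]

theorem L_sum_right {d : ℕ} {ι : Type} (s : Finset ι) (f : ι → E d × ℝ) (C : E d × ℝ) :
    L C (∑ i ∈ s, f i) = ∑ i ∈ s, L C (f i) := by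
  rw [L_comm, L_sum_left]
  exact Finset.sum_congr rfl fun i _ => L_comm _ _

/-- the Lorentz form is positive semidefinite on the space orthogonal to a light-like vector -/
theorem L_nonneg {d : ℕ} (T D : E d × ℝ) (hT : ‖T.1‖ = 1) (hT2 : T.2 = 1) (h : L D T = 0) :
    0 ≤ L D D := by
  rw [L, hT2, mul_one, sub_eq_zero] at h
  rw [L, real_inner_self_eq_norm_sq, ← h]
  have h1 := abs_real_inner_le_norm D.1 T.1
  rw [hT, mul_one] at h1
  have h2 : ⟪D.1, T.1⟫_ℝ * ⟪D.1, T.1⟫_ℝ = |⟪D.1, T.1⟫_ℝ| ^ 2 := by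
    rw [sq_abs, sq]
  rw [h2, sub_nonneg]
  exact pow_le_pow_left₀ (abs_nonneg _) h1 2

theorem s_RIDGE : S_RIDGE := by
  intro d ι _ V B T A hcard hT hT2 hAA hBB hVV hTV hAV hAT hBT hBV hBVi huniq
  classical
  by_contra hcon
  have hcon' : ∀ i, 1 / 3 < L A (B i) := fun i => by
    by_contra h
    exact hcon ⟨i, not_lt.mp h⟩
  set μ : ι → ℝ := fun i => L T (V i) / L (B i) (V i) with hμ
  have hμ0 : ∀ i, 0 < μ i := fun i => div_pos_of_neg_of_neg (hTV i) (hBVi i)
  have hTT : L T T = 0 := by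
    rw [L, real_inner_self_eq_norm_sq, hT, hT2]
    norm_num
  have hD : T - ∑ i, μ i • B i = 0 := by
    refine huniq _ ?_ fun j => ?_
    · rw [L_sub_left, hTT, L_sum_left]
      rw [Finset.sum_eq_zero fun i _ => by rw [L_smul_left, hBT, mul_zero], sub_zero]
    · rw [L_sub_left, L_sum_left]
      rw [Finset.sum_eq_single j (fun i _ hij => by
        rw [L_smul_left, hBV i j (Ne.symm hij), mul_zero]) (fun h => absurd (Finset.mem_univ j) h),
        L_smul_left]
      simp only [hμ]
      rw [div_mul_cancel₀ _ (hBVi j).ne, sub_self]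
  have hTe : T = ∑ i, μ i • B i := sub_eq_zero.mp hD
  set τ := L A T with hτ
  have hτe : τ = ∑ i, μ i * L A (B i) := by
    rw [hτ]
    conv_lhs => rw [hTe]
    rw [L_sum_right]
    exact Finset.sum_congr rfl fun i _ => L_smul_right _ _ _
  have claim : ∀ j, τ ≤ μ j * (1 + L A (B j)) := by
    intro j
    set s := L T (V j) with hs
    have hs0 : s < 0 := hTV j
    set A' : E d × ℝ := A - (τ / s) • V j with hA'
    have h1 : L A' T = 0 := by
      rw [hA', L_sub_left, L_smul_left, L_comm (V j) T, ← hs, ← hτ, div_mul_cancel₀ _ hs0.ne,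
        sub_self]
    have h2 : L A' A' ≤ 1 := by
      have : L A' A' = L A A - 2 * (τ / s) * L A (V j) + (τ / s) ^ 2 * L (V j) (V j) := by
        rw [hA']
        simp only [L_sub_left, L_sub_right, L_smul_left, L_smul_right]
        rw [L_comm (V j) A]
        ring
      rw [this, hAA, hAV, mul_zero, sub_zero]
      have h3 := mul_nonneg (sq_nonneg (τ / s)) (neg_nonneg.mpr (hVV j))
      linarith
    have h3 : L (A' + B j) T = 0 := by rw [L_add_left, h1, hBT, add_zero]
    have h4 := L_nonneg T (A' + B j) hT hT2 h3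
    have h5 : L (A' + B j) (A' + B j) = L A' A' + 2 * L A' (B j) + 1 := by
      simp only [L_add_left, L_add_right]
      rw [L_comm (B j) A', hBB]
      ring
    have h6 : -1 ≤ L A' (B j) := by linarith
    have h7 : L A' (B j) = L A (B j) - τ / μ j := by
      rw [hA', L_sub_left, L_smul_left, L_comm (V j) (B j)]
      simp only [hμ]
      rw [← hs]
      have := (hBVi j).ne
      field_simp
    rw [h7] at h6
    have h8 : τ / μ j ≤ 1 + L A (B j) := by linarith
    rw [div_le_iff₀ (hμ0 j)] at h8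
    linarith
  have hsum : ∑ _j : ι, τ ≤ ∑ j, μ j * (1 + L A (B j)) := Finset.sum_le_sum fun j _ => claim j
  rw [Finset.sum_const, nsmul_eq_mul, Finset.card_univ] at hsum
  have h9 : ∑ j, μ j * (1 + L A (B j)) = ∑ j, μ j + τ := by
    rw [hτe, ← Finset.sum_add_distrib]
    exact Finset.sum_congr rfl fun j _ => by ring
  rw [h9] at hsum
  have h10 : (4 : ℝ) ≤ Fintype.card ι := by exact_mod_cast hcard
  have h11 : 4 * τ ≤ Fintype.card ι * τ := mul_le_mul_of_nonneg_right h10 hAT.le
  have hne : (Finset.univ : Finset ι).Nonempty := by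
    rw [← Finset.card_pos, Finset.card_univ]
    omega
  have h12 : ∑ j, μ j * (1 / 3) < ∑ j, μ j * L A (B j) :=
    Finset.sum_lt_sum_of_nonempty hne fun j _ => mul_lt_mul_of_pos_left (hcon' j) (hμ0 j)
  rw [← hτe, ← Finset.sum_mul] at h12
  linarith

end Pool.Agent.L7h49.IE
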