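import Pool.Agent.L7h31.IE.Stm

set_option autoImplicit false

namespace Pool.Agent.L7h49.IE

open Pool.Agent.L7h31.IE
open scoped InnerProductSpace

/-- a vector orthogonal to three independent vectors of the space is zero, in coordinates -/
theorem cramer3 (a b e u : Fin 3 → ℝ)
    (hau : a 0 * u 0 + a 1 * u 1 + a 2 * u 2 = 0)
    (hbu : b 0 * u 0 + b 1 * u 1 + b 2 * u 2 = 0)
    (heu : e 0 * u 0 + e 1 * u 1 + e 2 * u 2 = 0)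
    (D : ℝ) (hD : D ≠ 0)
    (hdet : (a 0 * (b 1 * e 2 - b 2 * e 1) - a 1 * (b 0 * e 2 - b 2 * e 0) +
      a 2 * (b 0 * e 1 - b 1 * e 0)) ^ 2 = D) : u = 0 := by
  set δ := a 0 * (b 1 * e 2 - b 2 * e 1) - a 1 * (b 0 * e 2 - b 2 * e 0) +
      a 2 * (b 0 * e 1 - b 1 * e 0) with hδ
  have hδ0 : δ ≠ 0 := by
    rintro h
    rw [h] at hdet
    exact hD (by rw [← hdet]; ring)
  have h0 : δ * u 0 = 0 := by
    rw [hδ]
    linear_combination (b 1 * e 2 - b 2 * e 1) * hau - (a 1 * e 2 - a 2 * e 1) * hbu +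
      (a 1 * b 2 - a 2 * b 1) * heu
  have h1 : δ * u 1 = 0 := by
    rw [hδ]
    linear_combination -(b 0 * e 2 - b 2 * e 0) * hau + (a 0 * e 2 - a 2 * e 0) * hbu -
      (a 0 * b 2 - a 2 * b 0) * heu
  have h2 : δ * u 2 = 0 := by
    rw [hδ]
    linear_combination (b 0 * e 1 - b 1 * e 0) * hau - (a 0 * e 1 - a 1 * e 0) * hbu +
      (a 0 * b 1 - a 1 * b 0) * heu
  funext i
  fin_cases i
  · exact (mul_eq_zero.mp h0).resolve_left hδ0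
  · exact (mul_eq_zero.mp h1).resolve_left hδ0
  · exact (mul_eq_zero.mp h2).resolve_left hδ0

theorem inner3 (x y : E 3) : ⟪x, y⟫_ℝ = x 0 * y 0 + x 1 * y 1 + x 2 * y 2 := by
  rw [PiLp.inner_apply, Fin.sum_univ_three]
  simp [mul_comm]

/-- vectors of the plane orthogonal to `e` in terms of `a`, `b` -/
theorem rep (e a b y : E 3) (he : ‖e‖ = 1) (ha : ‖a‖ = 1) (hb : ‖b‖ = 1)
    (hae : ⟪a, e⟫_ℝ = 0) (hbe : ⟪b, e⟫_ℝ = 0) (hye : ⟪y, e⟫_ℝ = 0)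
    (hD : 1 - ⟪a, b⟫_ℝ ^ 2 ≠ 0) :
    (1 - ⟪a, b⟫_ℝ ^ 2) • y = (⟪a, y⟫_ℝ - ⟪a, b⟫_ℝ * ⟪b, y⟫_ℝ) • a +
      (⟪b, y⟫_ℝ - ⟪a, b⟫_ℝ * ⟪a, y⟫_ℝ) • b := by
  have haa : ⟪a, a⟫_ℝ = 1 := by rw [real_inner_self_eq_norm_sq, ha]; norm_num
  have hbb : ⟪b, b⟫_ℝ = 1 := by rw [real_inner_self_eq_norm_sq, hb]; norm_num
  have hee : ⟪e, e⟫_ℝ = 1 := by rw [real_inner_self_eq_norm_sq, he]; norm_num
  set c := ⟪a, b⟫_ℝ with hc
  set p := ⟪a, y⟫_ℝ with hp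
  set q := ⟪b, y⟫_ℝ with hq
  set u : E 3 := (1 - c ^ 2) • y - ((p - c * q) • a + (q - c * p) • b) with hu
  have hba : ⟪b, a⟫_ℝ = c := by rw [real_inner_comm]
  have h1 : ⟪a, u⟫_ℝ = 0 := by
    rw [hu, inner_sub_right, inner_add_right, real_inner_smul_right, real_inner_smul_right,
      real_inner_smul_right, ← hp, ← hc, haa]
    ring
  have h2 : ⟪b, u⟫_ℝ = 0 := by
    rw [hu, inner_sub_right, inner_add_right, real_inner_smul_right, real_inner_smul_right,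
      real_inner_smul_right, ← hq, hba, hbb]
    ring
  have h3 : ⟪e, u⟫_ℝ = 0 := by
    rw [hu, inner_sub_right, inner_add_right, real_inner_smul_right, real_inner_smul_right,
      real_inner_smul_right, real_inner_comm, hye, real_inner_comm, hae, real_inner_comm, hbe]
    ring
  have h4 : (u : Fin 3 → ℝ) = 0 := by
    rw [inner3] at h1 h2 h3 haa hbb hee hae hbe
    refine cramer3 a b e u h1 h2 h3 (1 - c ^ 2) hD ?_
    have hcc : a 0 * b 0 + a 1 * b 1 + a 2 * b 2 = c := by rw [hc, inner3]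
    have key : (a 0 * (b 1 * e 2 - b 2 * e 1) - a 1 * (b 0 * e 2 - b 2 * e 0) +
      a 2 * (b 0 * e 1 - b 1 * e 0)) ^ 2 =
      (a 0 * a 0 + a 1 * a 1 + a 2 * a 2) * (b 0 * b 0 + b 1 * b 1 + b 2 * b 2) *
        (e 0 * e 0 + e 1 * e 1 + e 2 * e 2) +
      2 * (a 0 * b 0 + a 1 * b 1 + a 2 * b 2) * (b 0 * e 0 + b 1 * e 1 + b 2 * e 2) *
        (a 0 * e 0 + a 1 * e 1 + a 2 * e 2) -
      (a 0 * a 0 + a 1 * a 1 + a 2 * a 2) * (b 0 * e 0 + b 1 * e 1 + b 2 * e 2) ^ 2 -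
      (b 0 * b 0 + b 1 * b 1 + b 2 * b 2) * (a 0 * e 0 + a 1 * e 1 + a 2 * e 2) ^ 2 -
      (e 0 * e 0 + e 1 * e 1 + e 2 * e 2) * (a 0 * b 0 + a 1 * b 1 + a 2 * b 2) ^ 2 := by
      ring
    rw [key, haa, hbb, hee, hae, hbe, hcc]
    ring
  have h5 : u = 0 := by
    ext i
    exact congrFun h4 i
  exact sub_eq_zero.mp h5

theorem s_SEC : S_SEC := by
  intro e a b y z he ha hb hae hbe hye hze hab hay hby haz hbz
  have haa : ⟪a, a⟫_ℝ = 1 := by rw [real_inner_self_eq_norm_sq, ha]; norm_num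
  have hbb : ⟪b, b⟫_ℝ = 1 := by rw [real_inner_self_eq_norm_sq, hb]; norm_num
  have hc1 : |⟪a, b⟫_ℝ| ≤ 1 := by
    have := abs_real_inner_le_norm a b
    rwa [ha, hb, mul_one] at this
  have hcne : ⟪a, b⟫_ℝ ≠ -1 := by
    intro h
    have h1 : ‖a + b‖ ^ 2 = 0 := by
      rw [norm_add_sq_real, ha, hb, h]
      norm_num
    have h2 : a + b = 0 := norm_eq_zero.mp (pow_eq_zero_iff (two_ne_zero) |>.mp h1)
    have h3 : ⟪a, y⟫_ℝ + ⟪b, y⟫_ℝ = 0 := by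
      rw [← inner_add_left, h2, inner_zero_left]
    linarith
  have hD0 : 0 < 1 - ⟪a, b⟫_ℝ ^ 2 := by
    rw [abs_le] at hc1
    have h1 : -1 < ⟪a, b⟫_ℝ := lt_of_le_of_ne hc1.1 (Ne.symm hcne)
    nlinarith
  have ry := rep e a b y he ha hb hae hbe hye hD0.ne'
  have rz := rep e a b z he ha hb hae hbe hze hD0.ne'
  have hba : ⟪b, a⟫_ℝ = ⟪a, b⟫_ℝ := real_inner_comm _ _
  -- inner products
  have hyz : (1 - ⟪a, b⟫_ℝ ^ 2) * ⟪y, z⟫_ℝ = ⟪a, y⟫_ℝ * ⟪a, z⟫_ℝ + ⟪b, y⟫_ℝ * ⟪b, z⟫_ℝ -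
      ⟪a, b⟫_ℝ * (⟪a, y⟫_ℝ * ⟪b, z⟫_ℝ + ⟪b, y⟫_ℝ * ⟪a, z⟫_ℝ) := by
    rw [← real_inner_smul_left, ry, inner_add_left, real_inner_smul_left, real_inner_smul_left]
    ring
  have hyy : (1 - ⟪a, b⟫_ℝ ^ 2) * ‖y‖ ^ 2 = ⟪a, y⟫_ℝ ^ 2 + ⟪b, y⟫_ℝ ^ 2 -
      2 * ⟪a, b⟫_ℝ * (⟪a, y⟫_ℝ * ⟪b, y⟫_ℝ) := by
    rw [← real_inner_self_eq_norm_sq, ← real_inner_smul_left, ry, inner_add_left,
      real_inner_smul_left, real_inner_smul_left]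
    ring
  have hzz : (1 - ⟪a, b⟫_ℝ ^ 2) * ‖z‖ ^ 2 = ⟪a, z⟫_ℝ ^ 2 + ⟪b, z⟫_ℝ ^ 2 -
      2 * ⟪a, b⟫_ℝ * (⟪a, z⟫_ℝ * ⟪b, z⟫_ℝ) := by
    rw [← real_inner_self_eq_norm_sq, ← real_inner_smul_left, rz, inner_add_left,
      real_inner_smul_left, real_inner_smul_left]
    ring
  clear ry rz
  have hY := norm_nonneg y
  have hZ := norm_nonneg z
  set c := ⟪a, b⟫_ℝ
  set p := ⟪a, y⟫_ℝ
  set q := ⟪b, y⟫_ℝ
  set p' := ⟪a, z⟫_ℝ
  set q' := ⟪b, z⟫_ℝ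
  set Y := ‖y‖
  set Z := ‖z‖
  set D := 1 - c ^ 2 with hDdef
  have n1 : 0 ≤ p * p' := mul_nonneg_of_nonpos_of_nonpos hay haz
  have n2 : 0 ≤ q * q' := mul_nonneg_of_nonpos_of_nonpos hby.le hbz
  have n3 : 0 ≤ p * q' := mul_nonneg_of_nonpos_of_nonpos hay hbz
  have n4 : 0 ≤ q * p' := mul_nonneg_of_nonpos_of_nonpos hby.le haz
  have n5 : 0 ≤ p * q := mul_nonneg_of_nonpos_of_nonpos hay hby.le
  have n6 : 0 ≤ p' * q' := mul_nonneg_of_nonpos_of_nonpos haz hbz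
  have nYZ : 0 ≤ Y * Z := mul_nonneg hY hZ
  by_cases hc0 : c ≤ 0
  · have h1 : 0 ≤ D * ⟪y, z⟫_ℝ := by
      rw [hyz]
      have : 0 ≤ -c * (p * q' + q * p') := mul_nonneg (by linarith) (by linarith)
      linarith
    have h2 : 0 ≤ ⟪y, z⟫_ℝ := nonneg_of_mul_nonneg_right h1 hD0
    linarith
  · rw [not_le] at hc0
    have hY2 : 2 / 3 * (p ^ 2 + q ^ 2) ≤ D * Y ^ 2 := by
      rw [hyy]
      nlinarith [sq_nonneg (p - q), mul_nonneg (show 0 ≤ 1 / 3 - c by linarith) n5]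
    have hZ2 : 2 / 3 * (p' ^ 2 + q' ^ 2) ≤ D * Z ^ 2 := by
      rw [hzz]
      nlinarith [sq_nonneg (p' - q'), mul_nonneg (show 0 ≤ 1 / 3 - c by linarith) n6]
    set R := p * q' + q * p' with hR
    have hR0 : 0 ≤ R := by linarith
    have hR2 : R ^ 2 ≤ (p ^ 2 + q ^ 2) * (p' ^ 2 + q' ^ 2) := by
      rw [hR]
      nlinarith [sq_nonneg (p * p' - q * q')]
    have hR3 : R ^ 2 ≤ (3 / 2 * (D * (Y * Z))) ^ 2 := by
      have h1 : (2 / 3 * (p ^ 2 + q ^ 2)) * (2 / 3 * (p' ^ 2 + q' ^ 2)) ≤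
          (D * Y ^ 2) * (D * Z ^ 2) :=
        mul_le_mul hY2 hZ2 (by positivity) (by positivity)
      have h2 : (3 / 2 * (D * (Y * Z))) ^ 2 = 9 / 4 * ((D * Y ^ 2) * (D * Z ^ 2)) := by ring
      rw [h2]
      linarith
    have hR4 : R ≤ 3 / 2 * (D * (Y * Z)) := by
      refine le_of_sq_le_sq hR3 ?_
      positivity
    have h1 : D * (-(1 / 2) * (Y * Z)) ≤ D * ⟪y, z⟫_ℝ := by
      rw [hyz]
      have h2 : c * R ≤ 1 / 3 * R := mul_le_mul_of_nonneg_right hab hR0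
      linarith
    exact le_of_mul_le_mul_left h1 hD0

end Pool.Agent.L7h49.IE
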